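import Pool.Agent.N179.PC.Defs

/-!
# Periods of semi-invariant classes on products with members of an independent family: definitions
-/

set_option autoImplicit false

universe u

namespace Pool.Agent.N179.GD

open Pool.Agent.TH125.Gal Pool.Agent.N179.GR.S Pool.Agent.N179.PC
open Pool.Agent.H914 Pool.Agent.H914.VarClass Pool.Agent.H914.VarClass.Obj
  Pool.Agent.H914.WeilCohomology

section Alg

variable {K : Type} [Field K] {A : Type} [Ring A] [Algebra K A] {B : Type} [Ring B] [Algebra K B]
  {M : Type} [Ring M] [Algebra K M] {Γ : Type} [Group Γ]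

/-- An element of one of the sets `S i` is zero if the traces of its products with the elements of all
the sets `S j` are zero. -/
def NondegOn (S : ℕ → Set A) (tr : A →ₗ[K] K) : Prop :=
  ∀ i, ∀ a ∈ S i, (∀ j, ∀ b ∈ S j, tr (a * b) = 0) → a = 0

/-- The linear forms in `F` are zero on `N`. -/
def ZeroOn (F : Set (A →ₗ[K] K)) (N : Submodule K A) : Prop := ∀ γ ∈ F, ∀ x ∈ N, γ x = 0

/-- The elements `s(ω · p(a))` are in `D'` for `a` in `S` and `ω` in `D`. -/
def SliceIn (p : A →ₐ[K] M) (s : M →ₗ[K] B) (S : Set A) (D : Set M) (D' : Set B) : Prop :=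
  ∀ ω ∈ D, ∀ a ∈ S, s (ω * p a) ∈ D'

/-- For all `γ` in `F` and `a` in `S` the form `y ↦ γ(p(a) · q(y))` is `c` times a form in `G`. -/
def RestrictIn (p : A →ₐ[K] M) (q : B →ₐ[K] M) (S : Set A) (c : K) (F : Set (M →ₗ[K] K))
    (G : Set (B →ₗ[K] K)) : Prop :=
  ∀ γ ∈ F, ∀ a ∈ S, ∃ γ' ∈ G, ∀ y, γ (p a * q y) = c * γ' y

/-- For all `γ` in `G` and `a` in `S` the form `x ↦ γ(s(p(a) · x))` is in `F`. -/
def TraceIn (p : A →ₐ[K] M) (s : M →ₗ[K] B) (S : Set A) (G : Set (B →ₗ[K] K))
    (F : Set (M →ₗ[K] K)) : Prop :=
  ∀ γ ∈ G, ∀ a ∈ S, ∃ γ' ∈ F, ∀ x, γ' x = γ (s (p a * x))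

/-- The group `Γ` multiplies `ω` by the character `ψ`. -/
def HasChar (ρ : AlgActs K A Γ) (ψ : Chr K Γ) (ω : A) : Prop :=
  ∀ g : Γ, (show Γ →* (A ≃ₐ[K] A) from ρ) g ω = (ψ g : K) • ω

/-- The values of the forms in `F` on `ω` are in `c · Q`. -/
def PeriodsIn (Q : Subfield K) (F : Set (A →ₗ[K] K)) (c : K) (ω : A) : Prop :=
  ∀ γ ∈ F, ∃ r ∈ Q, γ ω = r * c

/-- A prediction of the periods: a set `C` of characters and a number `v ψ` for each character, such
that the twist by `χ` multiplies `v ψ` by `t` (up to a number in `Q`). -/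
structure IsPrediction (Q : Subfield K) (t : K) (χ : Chr K Γ) (C : Set (Chr K Γ))
    (v : Chr K Γ → K) : Prop where
  mem : ∀ ψ, ψ * χ ∈ C → ψ ∈ C
  val : ∀ ψ, ∃ c ∈ Q, c ≠ 0 ∧ t * v ψ = c * v (ψ * χ)

end Alg

variable {k : Type u} [Field k] {𝒱 : VarClass k} {ops : CycleOps 𝒱}

/-- The properties of the Hodge classes and of the Mumford–Tate group `Γ`: the action is compatible
with pull-backs and (up to the character) with the traces; the classes of the cycles are Hodge classes;
the Hodge classes of degree `2 j` are multiplied by `χ(g)^j`, and all classes of degree `2 j` which are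
multiplied by `χ(g)^j` by all `g` in a subgroup of finite index are combinations of Hodge
classes. -/
structure IsMT {W : WeilCohomology.{u, 0} ops} {Γ : Type} [Group Γ] (T : HodgeData W Γ) : Prop where
  natural : ∀ {X Y : 𝒱.Obj} (f : X ⟶ Y), Intertwines (W.map f) (T.act Y) (T.act X)
  trace : ∀ X, TraceAct T.χ X.dim (W.tr X) (T.act X)
  cycles : ∀ X, MapStable id (algClasses W X) (T.hodge X)
  fixes : ∀ X, Fixes T.χ (T.hodge X) (T.act X)
  spans : ∀ X, TateAct T.χ (W.gr X) (T.hodge X) (T.act X)

/-- The de Rham and the Betti structure on the cohomology with coefficients in `K = ℂ`. -/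
structure PeriodData (W : WeilCohomology.{u, 0} ops) where
  /-- the field of algebraic numbers -/
  alg : Subfield W.K
  /-- the number `2πi` -/
  t : W.K
  /-- the de Rham classes in `H^m(X)` over the field of algebraic numbers -/
  dR : ∀ X : 𝒱.Obj, ℕ → Set (W.H X)
  /-- the rational linear forms on the Betti cohomology `H^m(X)`, extended by zero -/
  forms : ∀ X : 𝒱.Obj, ℕ → Set (W.H X →ₗ[W.K] W.K)

variable {W : WeilCohomology.{u, 0} ops} {Γ : Type} [Group Γ]

/-- The factor `P`: the semi-invariant classes are linear combinations of Hodge classes, there is a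
zero-cycle of degree different from zero, the Hodge conjecture is true for `P` (the Hodge classes are
rational combinations of classes of cycles), and the class of a cycle is zero if all its intersection
numbers with cycles are zero. -/
structure AlgFactor (T : HodgeData W Γ) (P : 𝒱.Obj) : Prop where
  factor : IsFactor T P
  hodge : MapStable id (T.hodge P) (algClasses W P)
  num : NondegOn (algClasses W P) (W.tr P)

/-- The properties of the two structures. The classes of cycles of codimension `i` are de Rham classes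
and `t^i` times rational Betti classes; so the slice `p_*(ω · a)` of a de Rham class `ω` on `X × Y`
with the class `a` of a cycle on `X` is a de Rham class on `Y`, a rational form on the cohomology
of `X × Y` restricted to `a × H(Y)` is `t^i` times a rational form, and the composition of a rational
form on the cohomology of `Y` with `x ↦ p_*(a · x)` is rational if `a` is a zero-cycle. -/
structure IsPeriodTheory (D : PeriodData W) : Prop where
  degree : ∀ X m, D.dR X m ⊆ W.gr X m
  pull : ∀ {X Y : 𝒱.Obj} (f : X ⟶ Y), MapStable (W.map f) (D.dR Y) (D.dR X)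
  slice : ∀ (X Y : 𝒱.Obj) (m n i : ℕ), n + 2 * X.dim = m + 2 * i →
    SliceIn (W.map (fst X Y)) (W.push (snd X Y)) (algClasses W X i) (D.dR (X.prod Y) m) (D.dR Y n)
  forms_zero : ∀ (X : 𝒱.Obj) (m n : ℕ), n ≠ m → ZeroOn (D.forms X m) (W.gr X n)
  forms_snd : ∀ (X Y : 𝒱.Obj) (m i : ℕ), RestrictIn (W.map (fst X Y)) (W.map (snd X Y))
    (algClasses W X i) (D.t ^ i) (D.forms (X.prod Y) (m + 2 * i)) (D.forms Y m)
  forms_push : ∀ (X Y : 𝒱.Obj) (m : ℕ), TraceIn (W.map (fst X Y)) (W.push (snd X Y))
    (algClasses W X X.dim) (D.forms Y m) (D.forms (X.prod Y) m)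

/-- The prediction is true for `X`: if `Γ` multiplies a de Rham class `ω` by a character `ψ` in `C`, then
all rational periods of `ω` are algebraic multiples of `v ψ`. -/
def PeriodsOn (T : HodgeData W Γ) (D : PeriodData W) (C : Set (Chr W.K Γ)) (v : Chr W.K Γ → W.K)
    (X : 𝒱.Obj) : Prop :=
  ∀ ψ ∈ C, ∀ m, ∀ ω ∈ D.dR X m, HasChar (T.act X) ψ ω → PeriodsIn D.alg (D.forms X m) (v ψ) ω

/-- The predictions of periods are true for the products `Y` over `Z` without indices in `E` if and
only if they are true for `Z`. -/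
def PeriodsReduce (T : HodgeData W Γ) {ι : Type} (V : ι → GRep W.K Γ) (Z : 𝒱.Obj) (E : Set ι)
    (D : PeriodData W) (C : Set (Chr W.K Γ)) (v : Chr W.K Γ → W.K) : Prop :=
  ∀ (L : List (ι × 𝒱.Obj)) (Y : 𝒱.Obj), Products T V Z L Y →
    (∀ x ∈ L, x.1 ∉ E ∧ AlgFactor T x.2) → (PeriodsOn T D C v Y ↔ PeriodsOn T D C v Z)

/-- `E U` is the set of the exceptional indices with respect to the representation `U`: it is finite; no
`j ≠ i` is exceptional with respect to `V i`; for every variety `Z`, the number of the exceptional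
indices with respect to the cohomology of `Z` is at most one half of `b - b'`, where `b` is the sum of
the Betti numbers and `b'` is the dimension of the span of the semi-invariant classes; and if the
cohomology of `Z` is generated by finitely many representations `U a` (for instance by the cohomology
of a variety of which `Z` is a power), then the predictions of periods are true for the products `Y` over
`Z` without indices in the `E (U a)` if and only if they are true for `Z`. -/
structure PeriodSets (T : HodgeData W Γ) {ι : Type} (V : ι → GRep W.K Γ)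
    (E : GRep W.K Γ → Set ι) : Prop where
  finite : ∀ U, (E U).Finite
  self : ∀ i, E (V i) ⊆ {i}
  variety : ∀ Z : 𝒱.Obj, 2 * (E (coh (T.var Z))).ncard + (semiSpan (coh (T.var Z))).dim ≤
    dim (coh (T.var Z))
  periods : ∀ (m : ℕ) (U : Fin m → GRep W.K Γ) (Z : 𝒱.Obj), GeneratedBy U (T.var Z) →
    ∀ D : PeriodData W, IsPeriodTheory D → ∀ C v, IsPrediction D.alg D.t T.χ C v →
      PeriodsReduce T V Z (⋃ a, E (U a)) D C v

end Pool.Agent.N179.GD
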