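import Pool.Agent.N179.GD.Defs
import Pool.Agent.N179.AB.Fin
import Pool.Agent.N179.SP.Fin
import Pool.Agent.N179.SD.Fin
import Pool.Agent.TH132.A.NumIn

/-!
# Periods of semi-invariant classes on products with members of an independent family: the theorem
-/

set_option autoImplicit false
set_option linter.unusedSectionVars false

open CategoryTheory AlgebraicGeometry

universe u

namespace Pool.Agent.N179.GD

open Module Pool.Agent.TH125.Gal Pool.Agent.N179.GR Pool.Agent.N179.GR.S Pool.Agent.N179.PC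


open Pool.Agent.H914 Pool.Agent.H914.VarClass Pool.Agent.H914.VarClass.Obj
  Pool.Agent.H914.WeilCohomology Pool.Agent.W552 Pool.Agent.H281R3.HT Pool.Agent.TH132.A

variable {k : Type u} [Field k] {𝒱 : VarClass k} {ops : CycleOps 𝒱}
  {W : WeilCohomology.{u, 0} ops} {Γ : Type} [Group Γ] {T : HodgeData W Γ}

/-- the action of `g` -/
abbrev rho (T : HodgeData W Γ) (X : 𝒱.Obj) (g : Γ) : W.H X ≃ₐ[W.K] W.H X :=
  (show Γ →* (W.H X ≃ₐ[W.K] W.H X) from T.act X) g

theorem push_rho (hT : IsMT T) {X Y : 𝒱.Obj} (g : Γ) (c : W.H (X.prod Y)) :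
    (T.χ g : W.K) ^ X.dim • rho T Y g (W.push (snd X Y) c) =
      W.push (snd X Y) (rho T (X.prod Y) g c) := by
  have htr : ∀ (Z : 𝒱.Obj) (g : Γ) (a : W.H Z),
      W.tr Z (rho T Z g a) = (T.χ g : W.K) ^ Z.dim * W.tr Z a := fun Z g a => hT.trace Z g a
  refine sub_eq_zero.1 (W.nondeg _ fun b => ?_)
  obtain ⟨b', rfl⟩ := (rho T Y g).surjective b
  have h2 : rho T (X.prod Y) g (W.map (snd X Y) b') = W.map (snd X Y) (rho T Y g b') :=
    hT.natural (snd X Y) g b'
  have e1 : W.tr Y (rho T Y g (W.push (snd X Y) c) * rho T Y g b') =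
      (T.χ g : W.K) ^ Y.dim * W.tr (X.prod Y) (c * W.map (snd X Y) b') := by
    rw [← map_mul, htr, W.tr_push]
  have e2 : W.tr Y (W.push (snd X Y) (rho T (X.prod Y) g c) * rho T Y g b') =
      (T.χ g : W.K) ^ (X.dim + Y.dim) * W.tr (X.prod Y) (c * W.map (snd X Y) b') := by
    rw [W.tr_push, ← h2, ← map_mul, htr, dim_prod]
  rw [sub_mul, map_sub, smul_mul_assoc, map_smul, smul_eq_mul, e1, e2, pow_add, mul_assoc,
    sub_self]

/-- the coefficient of small degree -/
theorem coef_zero_of_lt {P Y : 𝒱.Obj} {i m : ℕ} {b : W.H P} {z : W.H (P.prod Y)}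
    (hb : b ∈ W.gr P (2 * i)) (hz : z ∈ W.gr (P.prod Y) m) (h : m + 2 * i < 2 * P.dim) :
    coef W b z = 0 := by
  have h1 := W.push_mem (snd P Y) (W.mul_mem hz (W.map_mem (fst P Y) hb))
  rw [grZ_of_neg (by rw [dim_prod]; push_cast; omega)] at h1
  exact (Submodule.mem_bot _).1 h1

variable {D : PeriodData W} {C : Set (Chr W.K Γ)} {v : Chr W.K Γ → W.K}

theorem chr_zero (ψ χ : Chr W.K Γ) : ψ * χ ^ 0 = ψ := by
  ext g
  simp

theorem chr_succ (ψ χ : Chr W.K Γ) (n : ℕ) : ψ * χ ^ (n + 1) = ψ * χ ^ n * χ := by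
  ext g
  simp [pow_succ, mul_assoc]

theorem chr_inv (ψ χ : Chr W.K Γ) (n : ℕ) : ψ * (χ ^ n)⁻¹ * χ ^ n = ψ := by
  ext g
  simp

theorem pred_mem (h : IsPrediction D.alg D.t T.χ C v) (ψ : Chr W.K Γ) (i : ℕ) :
    ψ * T.χ ^ i ∈ C → ψ ∈ C := by
  induction i with
  | zero => intro h1; rwa [chr_zero] at h1
  | succ n ih =>
    intro h1
    rw [chr_succ] at h1
    exact ih (h.mem _ h1)

theorem pred_val (h : IsPrediction D.alg D.t T.χ C v) (ψ : Chr W.K Γ) (i : ℕ) :
    ∃ c ∈ D.alg, D.t ^ i * v ψ = c * v (ψ * T.χ ^ i) := by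
  induction i with
  | zero => exact ⟨1, D.alg.one_mem, by rw [chr_zero, pow_zero]⟩
  | succ n ih =>
    obtain ⟨c, hc, h1⟩ := ih
    obtain ⟨c', hc', -, h2⟩ := h.val (ψ * T.χ ^ n)
    refine ⟨c * c', D.alg.mul_mem hc hc', ?_⟩
    rw [chr_succ, mul_assoc c c', ← h2, pow_succ, mul_right_comm, h1]
    ring

theorem periods_prod (hT : IsMT T) (hD : IsPeriodTheory D) (hv : IsPrediction D.alg D.t T.χ C v)
    {P Y : 𝒱.Obj} (hF : AlgFactor T P)
    (hsl : ∀ z, (full (W.H (P.prod Y)) (algR (T.act (P.prod Y)))).Eig z → ∀ ψ,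
      ctr2 ψ z ∈ Submodule.span W.K {y | (full (W.H P) (algR (T.act P))).Eig y}) :
    PeriodsOn T D C v (P.prod Y) ↔ PeriodsOn T D C v Y := by
  constructor
  · intro h ψ hψ m ω hω hg γ hγ
    obtain ⟨a, ha, ha0⟩ := hF.factor.point
    obtain ⟨γ', hγ', h1⟩ := hD.forms_push P Y m γ hγ a ha
    obtain ⟨c, hc, h2⟩ := h ψ hψ m (W.map (snd P Y) ω) (hD.pull (snd P Y) m ω hω)
      (fun g => by
        have h3 : rho T (P.prod Y) g (W.map (snd P Y) ω) = W.map (snd P Y) (rho T Y g ω) :=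
          hT.natural (snd P Y) g ω
        have h4 : rho T Y g ω = (ψ g : W.K) • ω := hg g
        rw [h4, map_smul] at h3
        exact h3) γ' hγ'
    obtain ⟨z, hz, hza⟩ := ha
    have h5 : W.tr P a = ((P.V.degCycle z : ℚ) : W.K) := by
      rw [← hza]
      exact W.tr_cl hz
    have h0 : ((P.V.degCycle z : ℚ) : W.K) ≠ 0 := by
      intro h0
      apply ha0
      change W.tr P a = 0
      rw [h5, h0]
    have h6 : W.push (snd P Y) (W.map (fst P Y) a * W.map (snd P Y) ω) = W.tr P a • ω :=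
      W.push_snd a ω
    rw [h1, h6, h5, map_smul, smul_eq_mul] at h2
    refine ⟨((P.V.degCycle z : ℚ) : W.K)⁻¹ * c, D.alg.mul_mem (D.alg.inv_mem
      (SubfieldClass.ratCast_mem D.alg _)) hc, ?_⟩
    rw [mul_assoc, ← h2, ← mul_assoc, inv_mul_cancel₀ h0, one_mul]
  · intro h ψ hψ m ω hω hg γ hγ
    have hspan : ω ∈ Submodule.span W.K {w | ∃ x y, AS W P x ∧ w = ext W x y} := by
      refine SD.mem_span_of_slices fun φ => ?_
      have h1 := hsl ω ⟨⊤, inferInstance, fun g _ => ⟨_, hg g⟩⟩ φ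
      refine (Submodule.span_le.2 fun y hy => ?_) h1
      have h2 := hF.factor.twisted y hy
      refine (Submodule.span_le.2 ?_) h2
      rintro c ⟨i, hi, hc⟩
      have h3 := hT.spans P i c hi hc
      refine (Submodule.span_mono ?_) h3
      intro x hx
      exact AS.of (hF.hodge i x hx)
    obtain ⟨N, a, b, hab⟩ := exists_dualFam (AB.homEqNum_of hF.num)
    have key : ∀ a b : W.H P, AS W P a → AS W P b →
        ∃ c ∈ D.alg, γ (ext W a (coef W b ω)) = c * v ψ := by
      intro a b ha hb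
      refine AS.ind (p := fun a => ∃ c ∈ D.alg, γ (ext W a (coef W b ω)) = c * v ψ) ?_ ?_ ha
      swap
      · rintro x y ⟨c, hc, hx⟩ ⟨c', hc', hy⟩
        refine ⟨c + c', D.alg.add_mem hc hc', ?_⟩
        rw [add_mul, ← hx, ← hy, ← map_add]
        simp only [ext, map_add, add_mul]
      intro i a ha
      refine AS.ind (p := fun b => ∃ c ∈ D.alg, γ (ext W a (coef W b ω)) = c * v ψ) ?_ ?_ hb
      swap
      · rintro x y ⟨c, hc, hx⟩ ⟨c', hc', hy⟩
        refine ⟨c + c', D.alg.add_mem hc hc', ?_⟩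
        rw [add_mul, ← hx, ← hy, ← map_add, coef_add]
        simp only [ext, map_add, mul_add]
      intro e b hb
      by_cases he : m + 2 * e < 2 * P.dim
      · refine ⟨0, D.alg.zero_mem, ?_⟩
        rw [coef_zero_of_lt (alg_gr hb) (hD.degree _ _ hω) he, zero_mul]
        simp [ext]
      obtain ⟨n, hn⟩ : ∃ n, n + 2 * P.dim = m + 2 * e := ⟨m + 2 * e - 2 * P.dim, by omega⟩
      have hy : coef W b ω ∈ D.dR Y n := hD.slice P Y m n e hn ω hω b hb
      by_cases hnm : n + 2 * i = m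
      swap
      · refine ⟨0, D.alg.zero_mem, ?_⟩
        rw [zero_mul]
        refine hD.forms_zero (P.prod Y) m (2 * i + n) (by omega) γ hγ _ ?_
        exact W.mul_mem (W.map_mem _ (alg_gr ha)) (W.map_mem _ (hD.degree _ _ hy))
      subst hnm
      obtain ⟨γ', hγ', h1⟩ := hD.forms_snd P Y n i γ hγ a ha
      have hei : e + i = P.dim := by omega
      have hψ' : ψ * (T.χ ^ i)⁻¹ * T.χ ^ i = ψ := chr_inv _ _ _
      obtain ⟨c, hc, h2⟩ := h (ψ * (T.χ ^ i)⁻¹) (pred_mem hv _ i (by rw [hψ']; exact hψ)) n _ hy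
        (fun g => by
          have h3 := push_rho hT g (ω * W.map (fst P Y) b)
          have h4 : rho T (P.prod Y) g ω = (ψ g : W.K) • ω := hg g
          have h5 : rho T (P.prod Y) g (W.map (fst P Y) b) = W.map (fst P Y) (rho T P g b) :=
            hT.natural (fst P Y) g b
          have h6 : rho T P g b = (T.χ g : W.K) ^ e • b :=
            hT.fixes P e b (hT.cycles P e b hb) g
          have h9 : rho T (P.prod Y) g (ω * W.map (fst P Y) b) =
              ((ψ g : W.K) * (T.χ g : W.K) ^ e) • (ω * W.map (fst P Y) b) := by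
            rw [map_mul (rho T (P.prod Y) g), h4, h5, h6, map_smul, smul_mul_smul_comm]
          rw [h9, map_smul] at h3
          change rho T Y g (W.push (snd P Y) (ω * W.map (fst P Y) b)) = _
          have h7 : ((T.χ g : W.K) ^ P.dim) ≠ 0 := pow_ne_zero _ (Units.ne_zero _)
          refine (smul_right_injective _ h7) ?_
          change (T.χ g : W.K) ^ P.dim • _ = (T.χ g : W.K) ^ P.dim • _
          rw [h3, smul_smul]
          congr 1
          rw [← hei, pow_add, MonoidHom.mul_apply, MonoidHom.inv_apply, MonoidHom.pow_apply,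
            Units.val_mul, Units.val_inv_eq_inv_val, Units.val_pow_eq_pow_val]
          have h8 : ((T.χ g : W.K) ^ i) ≠ 0 := pow_ne_zero _ (Units.ne_zero _)
          field_simp) γ' hγ'
      obtain ⟨c', hc', h3⟩ := pred_val hv (ψ * (T.χ ^ i)⁻¹) i
      rw [hψ'] at h3
      refine ⟨c * c', D.alg.mul_mem hc hc', ?_⟩
      have h4 : γ (ext W a (coef W b ω)) = D.t ^ i * γ' (coef W b ω) := h1 _
      rw [h4, h2, mul_left_comm, h3, mul_assoc]
    have hsum : ∀ s : Finset (Fin N), ∃ c ∈ D.alg,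
        γ (∑ i ∈ s, ext W (a i) (coef W (b i) ω)) = c * v ψ := by
      classical
      intro s
      induction s using Finset.induction_on with
      | empty => exact ⟨0, D.alg.zero_mem, by simp⟩
      | insert i s hi ih =>
        obtain ⟨c, hc, h1⟩ := ih
        obtain ⟨c', hc', h2⟩ := key (a i) (b i) (hab.ha i) (hab.hb i)
        refine ⟨c' + c, D.alg.add_mem hc' hc, ?_⟩
        rw [Finset.sum_insert hi, map_add, h1, h2, add_mul]
    obtain ⟨c, hc, h1⟩ := hsum Finset.univ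
    refine ⟨c, hc, ?_⟩
    rw [← h1, ← hab.rep hspan]

theorem tower_of (hT : IsMT T) {ι : Type} {V : ι → GRep W.K Γ} {Z : 𝒱.Obj}
    {L : List (ι × 𝒱.Obj)} {Y : 𝒱.Obj} (h : Products T V Z L Y) :
    S.Tower V (T.var Z) (L.map fun x => (x.1, T.var x.2)) (T.var Y) := by
  induction h with
  | base => exact S.Tower.base
  | @step L Y i P hY hi hP ih =>
    refine S.Tower.step (Y := T.var Y) i (T.var P)
      (show Acts (T.var P) (T.var Y) from T.act (P.prod Y)) ih ?_ hP
      ⟨hT.natural (fst P Y), hT.natural (snd P Y)⟩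
    intro x hx
    obtain ⟨y, hy, rfl⟩ := List.mem_map.1 hx
    exact hi y hy

theorem tower_periods [IsAlgClosed W.K] (hT : IsMT T) (hD : IsPeriodTheory D)
    (hv : IsPrediction D.alg D.t T.χ C v) {ι : Type} {V : ι → GRep W.K Γ}
    {Z : 𝒱.Obj} {L : List (ι × 𝒱.Obj)} {Y : 𝒱.Obj} {m : ℕ} {E : Set ι}
    {U : Fin m → GRep W.K Γ}
    (hU : ∀ i ∉ E, ∀ a, Spl (fl (V i)) {fl (U a)})
    (hV : ∀ i ∉ E, ∀ j ∉ E, j ≠ i → Spl (fl (V i)) {fl (V j)})
    (hZ : GeneratedBy U (T.var Z)) (hY : Products T V Z L Y) :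
    (∀ x ∈ L, x.1 ∉ E ∧ AlgFactor T x.2) → (PeriodsOn T D C v Y ↔ PeriodsOn T D C v Z) := by
  induction hY with
  | base => exact fun _ => Iff.rfl
  | @step L Y i P hY hi hP ih =>
    intro hL
    have hL' := fun x hx => hL x (List.mem_cons_of_mem (i, P) hx)
    obtain ⟨hiE, hF⟩ := hL (i, P) List.mem_cons_self
    rw [← ih hL']
    refine periods_prod hT hD hv hF fun z hz ψ => ?_
    exact SP.slices (V := V) (Z := T.var Z) (Y := T.var Y) (P := T.var P)
      (υ := (show Acts (T.var P) (T.var Y) from T.act (P.prod Y))) hZ (tower_of hT hY) (i := i)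
      (hU i hiE) (fun x hx => by
        obtain ⟨y, hy, rfl⟩ := List.mem_map.1 hx
        exact hV i hiE y.1 (hL' y hy).1 (hi y hy)) hP
      ⟨hT.natural (fst P Y), hT.natural (snd P Y)⟩ hz ψ

/-- **The theorem.** -/
theorem final (hK : Nonempty (W.K ≃+* ℂ)) {ι : Type} (hT : IsMT T)
    {V : ι → GRep W.K Γ} (hV : Family V) :
    ∃ E : GRep W.K Γ → Set ι, PeriodSets T V E := by
  obtain ⟨e⟩ := hK
  have halg : IsAlgClosed W.K := IsAlgClosed.of_ringEquiv ℂ W.K e.symm
  refine ⟨Exc V, fun U => (exceptional e hV U).finite, ?_, ?_,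
    fun m U Z hZ D hD C v hv L Y hY hL => ?_⟩
  · intro j i hi
    by_contra h
    exact hi (hV.pair h)
  · intro Z
    refine (exceptional e hV (coh (T.var Z))).card_form
      ⟨(LinearMap.mul W.K (W.H Z)).compr₂ (W.tr Z), fun x hx => W.nondeg x fun y => hx y,
        T.χ ^ Z.dim, fun g (x y : W.H Z) => ?_⟩
    have h1 := hT.trace Z g (x * y)
    rw [map_mul] at h1
    rw [MonoidHom.pow_apply, Units.val_pow_eq_pow_val]
    exact h1
  · refine tower_periods hT hD hv (U := U) (E := ⋃ a, Exc V (U a))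
      (fun i hi a => ?_) (fun i _ j _ hij => hV.pair hij.symm) hZ hY hL
    by_contra h
    exact hi (Set.mem_iUnion.2 ⟨a, h⟩)

end Pool.Agent.N179.GD
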